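import Pool.Agent.Run7.h551.NF5
import Pool.Agent.TH377.LocG.Res

/-!
# MP_e66f84_ag: norm forms of any degree on projective varieties, over finitely generated fields

Let `k` be a field of characteristic zero, `h ∈ k[T]` separable of degree `d`, and let `V ⊆ ℙ` be any closed
subset of a projective space over `k`, given by homogeneous equations `Z`.  Let `B` be a form of any degree
`e` in the coordinates with coefficients in `k[T]`, so that `B_ρ`, `ρ` a root of `h`, is a family of conjugate
forms, and let `Q` be a form over `k` with `n deg Q = e d`.  We consider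

  `X : ∏_ρ B_ρ(x) = a Q(x)ⁿ`,  `x ∈ V`,

the product over the roots of `h`.  If `h` is irreducible and `E = k[T]/(h)`, then `B` is any form of degree `e`
over `E` and the left side is its norm `N_{E/k}(B)`.  The conjugate hypersurfaces `B_ρ = 0` meet `X` with
multiplicities divisible by `n`.  We only assume that `Q` does not vanish at the common zeros of two of the
forms `B_ρ` on `V`.  If `X` is a curve, examples are: the plane curves of degree `e d` which are touched
everywhere by `d` conjugate curves of degree `e`; the canonical curves of genus 4 given by a quadric `V` in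
`ℙ³` and `N_{E/k}(l) = a l₀³`, where `l, l₀` are linear forms and `[E : k] = 3`; the curves on a quadric given
by `N_{E/k}(l) = a Q²`, `[E : k] = 4`, `Q` a quadratic form.

(1) Local statement.  Let `A` be a discrete valuation ring of `k` with ANY residue field `κ`, let `h ∈ A[T]`
have a unit as its leading coefficient and a separable reduction all of whose irreducible factors have
degrees divisible by `gcd(2, D) D`, and let `m` be the valuation of `a`.  Then for ALL finite extensions
`L/k` such that `D` does not divide `m [L : k]`, ALL `V`, `e`, `B`, all `n` divisible by `D` and all `Q` as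
above: `X` has no point over `L`, and the fundamental groups of the smooth curves (or varieties) over `L`
which map to `X`, and the absolute Galois groups of their function fields, have no section over `G_L`.

(2) Random statement.  Let `k` be ANY field finitely generated over `ℚ`, the fraction field of a domain `R` of
characteristic zero that is finitely generated as a ring, let `D ≥ 2`, and let `d` be divisible by
`gcd(2, D) D`.  Then for all vectors `(a, h₀, …, h_d) ∈ R^(d+2)` outside a set of density zero the polynomial
`h = h₀ + h₁ T + … + h_d T^d` is irreducible of degree `d`, and the conclusion of (1) is true for ALL finite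
extensions `L/k` whose degree is not divisible by `D`, ALL `V`, `e`, `B`, `n`, `Q`.  So for 100% of the
vectors all these curves satisfy the section conjecture over all these fields, with both sides empty.
Density zero: for every `ε > 0` there is an ideal `I` of `R` of finite index such that the exceptional
vectors lie in at most `ε #(R/I)^(d+2)` residue classes modulo `I`.

The fundamental group is described through valuations.  Let `U` be a smooth geometrically connected
curve over `k` with function field `F`, let `Ω` be an algebraic closure of `F`, and let `F_U` be the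
maximal extension of `F` inside `Ω` which is unramified over the closed points of `U`, that is, over
their local rings, which are valuation rings of `F`.  Then `π₁(U) = Gal(F_U/F)`, and the map
`π₁(U) → G_k` is the restriction of automorphisms to the algebraic closure of `k` in `Ω`.

Proof.  For two roots `ρ, ρ'` the function `B_ρ/B_ρ'` on `X` is an `ℓ`-th power up to units at all places, for
`ℓ | n`: after the division of the coordinates by the largest one, at most one of the values of the `B_ρ`
is not a unit, by the hypothesis and Hilbert's Nullstellensatz, and their product is `a Qⁿ`.  The rest of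
the local argument, Kummer theory and the sum over the cycles of the decomposition group, is the one of
`MP_e66f84_ag.NormCurvesAnyField` (starting library `Pool.Agent.TH377.NC`), where `V` is the plane, the
forms are linear and `k[T]/(h)` is a field.  For (2) there are discrete valuations of `k` with finite
residue fields such that `a` has valuation one and `h` is irreducible modulo the valuation for almost all
vectors, as in `MP_e66f84_ag.SuperellipticFamilies` (starting library `Pool.Agent.TH377.Sup`).
-/

set_option autoImplicit false
set_option maxHeartbeats 400000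

open Polynomial

namespace Pool.Agent.Results.MP_e66f84_ag.NormFormsOnVarieties

universe u v w x y z

section definitions

variable (k : Type u) (F : Type v) (Ω : Type w) [Field k] [Field F] [Field Ω] [Algebra k F]
  [Algebra F Ω] [Algebra k Ω]

/-- The inertia group of the valuation ring `W` of `Ω`, as a subgroup of `Gal(Ω/F)`: the
automorphisms of `Ω` over `F` that map `W` onto itself and act as the identity on its residue
field. -/
noncomputable def inertia (W : ValuationSubring Ω) : Subgroup (Ω ≃ₐ[F] Ω) :=
  (W.inertiaSubgroup F).map (W.decompositionSubgroup F).subtype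

/-- `F_U`, for a set `U` of valuation rings of `F`: the elements of `Ω` fixed by the inertia groups
of all valuation rings `W` of `Ω` with `W ∩ F ∈ U`.  If `Ω` is an algebraic closure of a field `F`
of characteristic zero, this is the maximal extension of `F` in `Ω` unramified over `U`. -/
noncomputable def unramified (U : Set (ValuationSubring F)) : IntermediateField F Ω :=
  ⨅ W : {W : ValuationSubring Ω // W.comap (algebraMap F Ω) ∈ U},
    IntermediateField.fixedField (inertia F Ω W.1)

/-- The map `τ : M → M` acts as `σ : K → K` on the elements that the fields `K` and `M` have in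
common when they are regarded as subfields of `Ω` through `i` and `j`. -/
def ActsAs {K M Ω : Type*} [Field K] [Field M] [Field Ω] (i : K →+* Ω) (j : M →+* Ω) (σ : K → K)
    (τ : M → M) : Prop :=
  ∀ c z, j z = i c → j (τ z) = i (σ c)

/-- Let `k ⊆ K ⊆ Ω` and `F ⊆ M ⊆ Ω` be fields.  A splitting of `Gal(M/F) → Gal(K/k)`: a continuous
homomorphism `s` from `Gal(K/k)` to `Gal(M/F)` such that `s(σ)` acts as `σ` on the elements of
`K ∩ M`. -/
structure Splitting (K M : Type*) [Field K] [Field M] [Algebra k K] [Algebra F M] [Algebra K Ω]
    [Algebra M Ω] where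
  /-- the homomorphism `Gal(K/k) → Gal(M/F)` -/
  toHom : (K ≃ₐ[k] K) →* (M ≃ₐ[F] M)
  cont : Continuous toHom
  compat : ∀ σ : K ≃ₐ[k] K, ActsAs (algebraMap K Ω) (algebraMap M Ω) σ (toHom σ)

/-- The sections of `π₁(U) = Gal(F_U/F) → G_k`: the continuous homomorphisms `s` from
`G_k = Gal(k̄/k)` to `Gal(F_U/F)`, where `k̄` is the algebraic closure of `k` in `Ω`, such that
`s(σ)` acts as `σ` on the elements of `k̄`. -/
def GaloisSection (U : Set (ValuationSubring F)) : Type w :=
  Splitting k F Ω (algebraicClosure k Ω) (unramified F Ω U)

end definitions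

section varieties

variable {k : Type u} [Field k] {r : ℕ}

/-- The value of the form `B_ρ` at a vector `x` with entries in a field `Ω` over `k`: the coefficients of
`B` are evaluated at `ρ ∈ Ω`. -/
noncomputable def formAt {Ω : Type*} [Field Ω] [Algebra k Ω] (B : MvPolynomial (Fin r) k[X]) (ρ : Ω)
    (x : Fin r → Ω) : Ω :=
  MvPolynomial.eval₂ (aeval ρ : k[X] →ₐ[k] Ω).toRingHom x B

/-- The norm form `∏_ρ B_ρ` at a vector with entries in an algebraically closed field `Ω` over `k`: the
product over the roots `ρ` of `h` in `Ω`, with multiplicities. -/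
noncomputable def normForm {Ω : Type*} [Field Ω] [Algebra k Ω] (h : k[X])
    (B : MvPolynomial (Fin r) k[X]) (x : Fin r → Ω) : Ω :=
  ((h.aroots Ω).map fun ρ => formAt B ρ x).prod

/-- The equations of `X`, for a vector with entries in an algebraically closed field `Ω` over `k`: the
equations `Z` of `V` and `∏_ρ B_ρ(x) = a Q(x)ⁿ`. -/
def OnVariety {Ω : Type*} [Field Ω] [Algebra k Ω] (Z : Set (MvPolynomial (Fin r) k)) (h : k[X])
    (B : MvPolynomial (Fin r) k[X]) (a : k) (Q : MvPolynomial (Fin r) k) (n : ℕ) (x : Fin r → Ω) :
    Prop :=
  (∀ p ∈ Z, MvPolynomial.aeval x p = 0) ∧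
    normForm h B x = algebraMap k Ω a * MvPolynomial.aeval x Q ^ n

/-- The form `Q` does not vanish at the common zeros on `V` of `B_ρ` and `B_ρ'`, for different roots
`ρ, ρ'` of `h`. -/
def Transversal (Z : Set (MvPolynomial (Fin r) k)) (h : k[X]) (B : MvPolynomial (Fin r) k[X])
    (Q : MvPolynomial (Fin r) k) : Prop :=
  ∀ ρ ρ' : AlgebraicClosure k, aeval ρ h = 0 → aeval ρ' h = 0 → ρ ≠ ρ' →
    ∀ x : Fin r → AlgebraicClosure k, x ≠ 0 → (∀ p ∈ Z, MvPolynomial.aeval x p = 0) →
      formAt B ρ x = 0 → formAt B ρ' x = 0 → MvPolynomial.aeval x Q ≠ 0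

/-- `X` has no point over `L`. -/
def NoPoint (L : Type y) [Field L] [Algebra k L] (Z : Set (MvPolynomial (Fin r) k)) (h : k[X])
    (B : MvPolynomial (Fin r) k[X]) (a : k) (Q : MvPolynomial (Fin r) k) (n : ℕ) : Prop :=
  ∀ x : Fin r → L, x ≠ 0 → ¬ OnVariety Z h B a Q n fun j => algebraMap L (AlgebraicClosure L) (x j)

/-- Let `F` be any field over `L` that contains a point of `X`, for instance the function field of a
curve over `L` which maps to `X`, and let `Ω` be an algebraic closure of `F`.  Then for every set `U` of
valuation rings of `F` over `L` there is no section of `π₁(U) → G_L`.  If `F` is the function field of a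
curve, such `U` are given by its normalisation and by all its open subcurves. -/
def NoSection (L : Type y) [Field L] [Algebra k L] (Z : Set (MvPolynomial (Fin r) k)) (h : k[X])
    (B : MvPolynomial (Fin r) k[X]) (a : k) (Q : MvPolynomial (Fin r) k) (n : ℕ) : Prop :=
  ∀ (F : Type v) (Ω : Type w) [Field F] [Field Ω] [Algebra L F] [Algebra F Ω] [Algebra L Ω]
    [Algebra k Ω] [IsScalarTower L F Ω] [IsScalarTower k L Ω] [IsAlgClosure F Ω] (x : Fin r → F)
    (U : Set (ValuationSubring F)), x ≠ 0 →
      OnVariety Z h B a Q n (fun j => algebraMap F Ω (x j)) →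
      (∀ O ∈ U, ∀ c : L, algebraMap L F c ∈ O) → IsEmpty (GaloisSection L F Ω U)

/-- All the assertions for the polynomial `h`, the numbers `D` and `a` and the integer `m`: for all finite
extensions `L` of `k` such that `D` does not divide `m [L : k]`, all closed subsets `V` of projective
spaces given by sets `Z` of homogeneous polynomials, all forms `B` of any degree `e` with coefficients in
`k[T]`, all `n ≠ 0` divisible by `D` and all forms `Q` with `n deg Q = e deg h` which do not vanish at the
common zeros on `V` of two of the conjugate forms, `X` has no point over `L`, and the curves which map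
to `X` have no section over `L`. -/
def NothingOver (D : ℕ) (h : k[X]) (a : k) (m : ℤ) : Prop :=
  ∀ (L : Type y) [Field L] [Algebra k L] [FiniteDimensional k L],
    ¬ (D : ℤ) ∣ m * (Module.finrank k L : ℤ) → ∀ r n q e : ℕ, n ≠ 0 → D ∣ n → n * q = e * h.natDegree →
      ∀ (B : MvPolynomial (Fin r) k[X]) (Z : Set (MvPolynomial (Fin r) k))
        (Q : MvPolynomial (Fin r) k), B.IsHomogeneous e → (∀ p ∈ Z, ∃ i, p.IsHomogeneous i) →
        Q.IsHomogeneous q → Transversal Z h B Q →
          NoPoint L Z h B a Q n ∧ NoSection.{u, v, w} L Z h B a Q n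

end varieties

/-- The degrees of all irreducible factors of `P` are divisible by `N`. -/
def FactorsDivisible {κ : Type x} [Field κ] (N : ℕ) (P : κ[X]) : Prop :=
  ∀ q : κ[X], Irreducible q → q ∣ P → N ∣ q.natDegree

/-- The valuation of `a` at the discrete valuation ring `A` is `m`: `a` is the product of a unit and of
the power with the exponent `m` of a uniformiser. -/
def HasValue {k : Type u} [Field k] (A : ValuationSubring k) (m : ℤ) (a : k) : Prop :=
  ∃ ϖ t : A, Irreducible ϖ ∧ IsUnit t ∧ a = (t : k) * (ϖ : k) ^ m

/-- (1) `A` is a discrete valuation ring of `k` with an arbitrary residue field `κ`, `f ∈ A[T]` has a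
unit as its leading coefficient, positive degree, and a separable reduction whose irreducible factors
have degrees divisible by `gcd(2, D) D`, and `m` is the valuation of `a`. -/
def LocalStatement : Prop :=
  ∀ (k : Type u) [Field k] [CharZero k] (A : ValuationSubring k) [IsDiscreteValuationRing A]
    (κ : Type x) [Field κ] (ρ : A →+* κ), Function.Surjective ρ → ∀ f : Polynomial A,
    IsUnit f.leadingCoeff → f.natDegree ≠ 0 → (f.map ρ).Separable → ∀ D : ℕ, D ≠ 0 →
    FactorsDivisible (Nat.gcd 2 D * D) (f.map ρ) → ∀ (a : k) (m : ℤ), HasValue A m a →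
    NothingOver.{u, v, w, y} D (f.map (algebraMap A k)) a m

/-- The polynomial `c₁ + c₂ T + … + c_{d+1} T^d` over `k`, for a vector `(c₀, …, c_{d+1})` of elements
of `R`. -/
noncomputable def poly {R : Type} [CommRing R] (k : Type) [Field k] [Algebra R k] {d : ℕ}
    (c : Fin (d + 2) → R) : k[X] :=
  ∑ i : Fin (d + 1), C (algebraMap R k (c i.succ)) * X ^ (i : ℕ)

/-- The vectors `c = (a, h₀, …, h_d)` of elements of `R` that do not have the following property:
the polynomial `h = h₀ + … + h_d T^d` is irreducible of degree `d` over `k`, and all the assertions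
are true for `h`, `a` and the extensions `L` whose degree is not divisible by `D`. -/
def ExceptionalVectors (R k : Type) [CommRing R] [Field k] [Algebra R k] (D d : ℕ) :
    Set (Fin (d + 2) → R) :=
  {c | ¬ (Irreducible (poly k c) ∧ (poly k c).natDegree = d ∧
    NothingOver.{0, v, w, y} D (poly k c) (algebraMap R k (c 0)) 1)}

/-- Density zero: for every `ε > 0` there is an ideal `I` of finite index such that `E` lies in at most
`ε #(R/I)ᴺ` residue classes modulo `I`. -/
def DensityZero {R : Type} [CommRing R] {N : ℕ} (E : Set (Fin N → R)) : Prop :=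
  ∀ ε : ℝ, 0 < ε → ∃ I : Ideal R, Finite (R ⧸ I) ∧
    (Set.ncard ((fun (t : Fin N → R) i => Ideal.Quotient.mk I (t i)) '' E) : ℝ) ≤
      ε * (Nat.card (R ⧸ I) : ℝ) ^ N

section proof

open Pool.Agent.Run7.h551.NF Pool.Agent.TH377.LocG Pool.Agent.TH377.Sup

lemma toSec {k : Type u} {F : Type v} {Ω : Type w} [Field k] [Field F] [Field Ω] [Algebra k F]
    [Algebra F Ω] [Algebra k Ω] (U : Set (ValuationSubring F))
    (h : IsEmpty (Pool.Agent.W620.SC.GSection k F Ω U)) : IsEmpty (GaloisSection k F Ω U) :=
  ⟨fun s => h.false ⟨s.toHom, s.cont, s.compat⟩⟩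

/-- the assertions, given a good discrete valuation ring -/
theorem at_dvr {A : Type z} {k : Type u} [CommRing A] [IsDomain A] [IsDiscreteValuationRing A]
    [Field k] [Algebra A k] [IsFractionRing A k] [CharZero k] (f : A[X])
    (hf : IsUnit f.leadingCoeff) (hdeg : f.natDegree ≠ 0)
    (hs : (f.map (IsLocalRing.residue A)).Separable) (D : ℕ) (hD : D ≠ 0)
    (hN : FactorDiv (Nat.gcd 2 D * D) (f.map (IsLocalRing.residue A))) (ϖ t : A)
    (hϖ : Irreducible ϖ) (ht : IsUnit t) (a : k) (m : ℤ)
    (ha : a = algebraMap A k t * algebraMap A k ϖ ^ m) :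
    NothingOver.{u, v, w, y} D (f.map (algebraMap A k)) a m := by
  intro L _ _ _ hL r n q e hn0 hDn hnq B Z Q hB hZ hQ htr
  obtain ⟨g, c, hc, hg, hgK, hgs, hgf, -⟩ := unit_data (K := k) f hf hs (Nat.gcd 2 D * D) hN
  have hdeg' : (f.map (algebraMap A k)).natDegree ≠ 0 := by
    rwa [natDegree_map_eq_of_injective (IsFractionRing.injective A k)]
  obtain ⟨key1, key2⟩ := alg_bothV (K := k) (L := L) D hD (f.map (algebraMap A k)) c hc g hg
    hgK hgs hgf ϖ t hϖ ht m hL a ha n q e hDn hnq hn0 hdeg' B hB Z hZ Q hQ htr
  refine ⟨?_, ?_⟩
  · rintro x hx ⟨hxZ, hon⟩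
    refine key1 x hx (fun p hp => ?_) hon
    have h1 := hxZ p hp
    have h2 : MvPolynomial.aeval (fun j => algebraMap L (AlgebraicClosure L) (x j)) p =
        algebraMap L (AlgebraicClosure L) (MvPolynomial.aeval x p) :=
      MvPolynomial.aeval_algebraMap_apply (AlgebraicClosure L) x p
    rw [h2] at h1
    exact (_root_.map_eq_zero _).1 h1
  · intro F Ω _ _ _ _ _ _ _ _ _ x U hx hon hU
    let _ : Algebra k F := ((algebraMap L F).comp (algebraMap k L)).toAlgebra
    have hst : IsScalarTower k L F := IsScalarTower.of_algebraMap_eq (fun _ => rfl)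
    have hst2 : IsScalarTower k F Ω := by
      refine IsScalarTower.of_algebraMap_eq fun c => ?_
      change algebraMap k Ω c = algebraMap F Ω (algebraMap L F (algebraMap k L c))
      rw [← IsScalarTower.algebraMap_apply L F Ω, ← IsScalarTower.algebraMap_apply k L Ω]
    refine toSec U (key2 F Ω x U hx (fun p hp => ?_) hon.2 hU)
    have h1 := hon.1 p hp
    have h2 : MvPolynomial.aeval (fun j => algebraMap F Ω (x j)) p =
        algebraMap F Ω (MvPolynomial.aeval x p) :=
      MvPolynomial.aeval_algebraMap_apply Ω x p
    rw [h2] at h1
    exact (_root_.map_eq_zero _).1 h1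

/-- (1), the local statement -/
theorem local_statement : LocalStatement.{u, v, w, x, y} := by
  intro k _ _ A _ κ _ ρ hρ f hf hdeg hs D hD hN a m ⟨ϖ, t, hϖ, ht, hat⟩
  exact at_dvr f hf hdeg (separable_residue ρ hρ f hs) D hD (factorDiv_residue ρ hρ _ f hN) ϖ t hϖ ht
    a m hat

/-- (2), random vectors -/
theorem random_statement (R k : Type) [CommRing R] [IsDomain R] [CharZero R]
    [Algebra.FiniteType ℤ R] [Field k] [Algebra R k] [IsFractionRing R k] (D : ℕ) (hD : 2 ≤ D)
    (d : ℕ) (hd : 0 < d) (hNd : Nat.gcd 2 D * D ∣ d) :
    DensityZero (ExceptionalVectors.{v, w, y} R k D d) := by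
  have hN3 : 3 ≤ Nat.gcd 2 D * D := by
    rcases Nat.lt_or_ge 2 D with h1 | h1
    · have h2 : 1 ≤ Nat.gcd 2 D := Nat.gcd_pos_of_pos_left _ (by norm_num)
      nlinarith
    · have h2 : D = 2 := le_antisymm h1 hD
      subst h2
      decide
  have hd3 : 3 ≤ d := hN3.trans (Nat.le_of_dvd hd hNd)
  have hcz : CharZero k := charZero_of_injective_algebraMap (IsFractionRing.injective R k)
  intro ε hε
  refine density_allG (k := k) d hd3 (fun c => Irreducible (poly k c) ∧
    (poly k c).natDegree = d ∧ NothingOver.{0, v, w, y} D (poly k c) (algebraMap R k (c 0)) 1)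
    ?_ ε hε
  rintro c hc0 ⟨A, _, _, _, _, _, f, ϖ, t, n, hf, hlc, hirr, hsep, hϖ, ht, hn, ha⟩
  have hpoly : poly k c = f.map (algebraMap A k) := by
    rw [hf]
    rfl
  have hdegp : (poly k c).natDegree = d := pol_natDegree _ hc0
  have hdegf : f.natDegree = d := by
    rw [← hdegp, hpoly, natDegree_map_eq_of_injective (IsFractionRing.injective A k)]
  have hdeg1 : (f.map (IsLocalRing.residue A)).natDegree = d := by
    rw [← hdegf]
    exact natDegree_map_of_leadingCoeff_ne_zero _ (hlc.map _).ne_zero
  have hN : FactorDiv (Nat.gcd 2 D * D) (f.map (IsLocalRing.residue A)) :=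
    factorDiv_irr _ _ hirr (by rw [hdeg1]; exact hNd)
  obtain ⟨-, -, -, -, -, -, -, hirrK⟩ := unit_data (K := k) f hlc hsep _ hN
  refine ⟨?_, hdegp, ?_⟩
  · rw [hpoly]
    exact hirrK hirr
  · have h1 := at_dvr.{0, v, w, y, 0} f hlc (by omega) hsep D (by omega) hN ϖ t hϖ ht
      (algebraMap R k (c 0)) n ha
    rw [hpoly]
    intro L _ _ _ hL
    refine h1 L ?_
    rcases hn with rfl | rfl
    · exact hL
    · rw [neg_mul, dvd_neg]
      exact hL

end proof

/-- **Norm forms on projective varieties.**  (1) The local statement, for all discrete valuation rings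
with any residue field, all closed subsets of projective spaces and all forms of any degree.
(2) If `R` is a domain of characteristic zero that is finitely generated as a ring, `k` its field of
fractions, `D ≥ 2` and `gcd(2, D) D` divides `d > 0`, then for all vectors `(a, h₀, …, h_d) ∈ R^(d+2)` outside
a set of density zero `h = h₀ + … + h_d T^d` is irreducible of degree `d` over `k`, and for all finite
extensions `L/k` whose degree is not divisible by `D` all the varieties `∏_ρ B_ρ(x) = a Q(x)ⁿ`, `x ∈ V`, with
`D | n` and `Q` transversal to the `B_ρ` have no point over `L`, and all curves that map to them have no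
section over `L`. -/
theorem result :
    LocalStatement.{u, v, w, x, y} ∧
    ∀ (R k : Type) [CommRing R] [IsDomain R] [CharZero R] [Algebra.FiniteType ℤ R] [Field k]
      [Algebra R k] [IsFractionRing R k] (D : ℕ), 2 ≤ D → ∀ d : ℕ, 0 < d →
      Nat.gcd 2 D * D ∣ d → DensityZero (ExceptionalVectors.{v, w, y} R k D d) :=
  ⟨local_statement, fun R k _ _ _ _ _ _ _ D hD d hd hNd => random_statement R k D hD d hd hNd⟩

end Pool.Agent.Results.MP_e66f84_ag.NormFormsOnVarieties
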