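import Pool.Agent.Run7.h846.MainS
import Pool.Agent.Run7.h846.SecObs
import Pool.Agent.Run7.h846.DesM
import Pool.Agent.Run7.h438.Spread1

/-!
# Rational points of curves over finitely generated fields and sections for their specialisations

Let `K` be a number field, `R` a finitely generated `K`-algebra which is a domain, with fraction field
`F`, and `s` the coordinate of the affine line over `Spec R`; so `k = F(s)` is a field finitely generated
over `ℚ`.  Let `h ∈ R[s]` be nonzero and let `f ∈ R[s][x]` be monic in `x` of even degree
`n = 2 g + 2 ≥ 4`.  We consider the hyperelliptic curve

  `X : h(s) y² = f(s, x)`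

of genus `g` over `k`, and its specialisations `X_b : h(b) y² = f(b, x)` in the points `b` of the affine
line over `Spec R` with values in fields `L` containing `K`.  We suppose that `f` is a product of factors
`x - θ_i(s)` with `θ_i ∈ F̄[s]` (they may be permuted by the Galois group of `F`) and that for some
`c ∈ R` the function `h` has a zero of odd order at `s = c` and `f(c, x)` is separable.

**Theorem.**  The following are equivalent.
(1) `f` has a root in `F[s]`.
(2) The curve `X` has a `k`-rational point.
(3) There is a nonempty open subset of the base such that for ALL fields `L` containing `K`, for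
instance all those finitely generated over `ℚ`, and all `L`-points `b` of this open subset the curve
`X_b` has an `L`-rational point.
(4) There is a nonempty open subset of the base such that for all number fields `L` containing `K` and
all `L`-points `b` of this open subset the curve `X_b` has an `L`-rational point, or there
is a smooth curve `U` over `L` with a dominant map to `X_b`, for instance the projective curve `X_b`
or an open part of it, for which the geometrically pro-2 fundamental group, or any larger quotient
of the fundamental group, has a section.

So for these curves `X` of genus `g ≥ 2` over finitely generated fields `k`: if `X` has no `k`-rational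
point, then a Zariski dense set of its specialisations over number fields have no Galois
sections; all `X_b` over all finitely generated fields `L` have Galois sections only if `X` has a
rational point, and then almost all `X_b` have rational points.  As Galois sections of `X` over `k`
specialise to Galois sections of the `X_b` (known, for good reduction in characteristic zero), `X` has a
Galois section over `k` if and only if it has a `k`-rational point.  Nothing is assumed about local
points or the bad places; `f` may have roots modulo all primes, and then the obstruction to the
sections is a global one.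

The fundamental group is described through valuations.  Let `U` be a smooth geometrically connected
curve over `k` with function field `F`, let `Ω` be an algebraic closure of `F`, and let `F_U` be the
maximal extension of `F` inside `Ω` which is unramified over the closed points of `U`, that is, over
their local rings, which are valuation rings of `F`.  Then `π₁(U) = Gal(F_U/F)`, and the map
`π₁(U) → G_k` is the restriction of automorphisms to the algebraic closure of `k` in `Ω`.

The implication from (4) to (1), the main part, is a theorem of helper846, first handed in as
`MP_2f3286_ag.SectionsInFamilies`, where the question is about all hyperbolic curves over number fields.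
The statements (2) and (3) about rational points over the finitely generated field `k` and over all
fields `L` are added here (`Run7.h438.SI.spread_rational`).

Proof of that implication (helper846).  If `f` has no root in `F[s]`, one specialises `R` to a number
field `L₀` so that this is still true, and constructs a finite extension `L` of `L₀` and a point
`s₀ ∈ L`, close to a simple zero of `h` at exactly one place, such that the norm of `s₀` is a prime
number `p` and at finitely many auxiliary primes everything is totally ramified (files Eis, Tower, Nf of
`Run7/h846`).  Let `s` be a section for the fibre over `s₀`, with roots `Θ_i` in the extension `E` of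
`L`.  It gives classes `κ_i ∈ E^*/E^{*2}` with `κ_i β_i² = (x - Θ_i)/(x - Θ_0)`, `β_i` fixed by
`s(G_E)`.  By the theory of the sections at a place of good or multiplicative type (parts SecC, SecE of
helper623, helper327, helper933 and others, here over the field `E`) the valuations of these classes at
the good places of `E` have the same parities as those of a point.  The norms of the `κ_i` to the
splitting field `M` lie in finitely many classes, and by the choice of the auxiliary primes they are
powers of `p` up to squares.  So the root `Θ_i` which is distinguished by the valuations above `p` is
fixed by `Gal(M/L₀)`.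
-/

set_option autoImplicit false

open Polynomial

namespace Pool.Agent.Results.MP_e66f84_ag.SectionsInFamilies

universe u v w

section definitions

variable (k : Type u) (F : Type v) (Ω : Type w) [Field k] [Field F] [Field Ω] [Algebra k F]
  [Algebra F Ω] [Algebra k Ω]

/-- The inertia group of the valuation ring `W` of `Ω`, as a subgroup of `Gal(Ω/F)`: the
automorphisms of `Ω` over `F` that map `W` onto itself and act as the identity on its residue
field. -/
noncomputable def inertia (W : ValuationSubring Ω) : Subgroup (Ω ≃ₐ[F] Ω) :=
  (W.inertiaSubgroup F).map (W.decompositionSubgroup F).subtype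

/-- `F_U`, for a set `U` of valuation rings of `F`: the elements of `Ω` fixed by the inertia groups
of all valuation rings `W` of `Ω` with `W ∩ F ∈ U`.  If `Ω` is an algebraic closure of a field `F`
of characteristic zero, this is the maximal extension of `F` in `Ω` unramified over `U`. -/
noncomputable def unramified (U : Set (ValuationSubring F)) : IntermediateField F Ω :=
  ⨅ W : {W : ValuationSubring Ω // W.comap (algebraMap F Ω) ∈ U},
    IntermediateField.fixedField (inertia F Ω W.1)

/-- `N` is a field between `F` and `F_U` which contains the elements of `Ω` which are algebraic over
`k` and contains every element of `F_U` whose square lies in `N`.  The largest such field is `F_U`,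
and then `Gal(N/F) = π₁(U)`; the smallest one is the maximal pro-2 extension of `k̄ F` in `F_U`, and
then `Gal(N/F)` is the geometrically pro-2 fundamental group of `U`. -/
structure TwoClosed (U : Set (ValuationSubring F)) (N : IntermediateField F Ω) : Prop where
  le : N ≤ unramified F Ω U
  const : ∀ c : Ω, IsAlgebraic k c → c ∈ N
  sqrt : ∀ α ∈ unramified F Ω U, α ^ 2 ∈ N → α ∈ N

/-- The sections of `Gal(N/F) → G_k`: the continuous homomorphisms `s` from
`G_k = Gal(k̄/k)` to `Gal(N/F)`, where `k̄` is the algebraic closure of `k` in `Ω`, such that
`s(σ)` acts as `σ` on the elements of `k̄`. -/
structure GaloisSection (N : IntermediateField F Ω) where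
  /-- the homomorphism `Gal(k̄/k) → Gal(N/F)` -/
  toHom : (algebraicClosure k Ω ≃ₐ[k] algebraicClosure k Ω) →* (N ≃ₐ[F] N)
  cont : Continuous toHom
  compat : ∀ σ (c : algebraicClosure k Ω) (z : N), (z : Ω) = c → (toHom σ z : Ω) = σ c

end definitions

/-- The smooth projective curve `t y² = g(x)`, where `t ≠ 0` and `g` is monic and separable of even
degree, has a point over `k`: an affine point, or a point at infinity (if `t` is a square). -/
def HasPoint {k : Type u} [Field k] (t : k) (g : k[X]) : Prop :=
  (∃ x y : k, t * y ^ 2 = g.eval x) ∨ ∃ r : k, t * r ^ 2 = 1

/-- There is a section for a curve over the curve `t y² = g(x)`: there are a field `F` over `k` that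
contains a point `(x, y)` of the curve, for instance the function field of the curve or of a curve
which dominates it, an algebraic closure `Ω` of `F`, a set `U` of valuation rings of `F` over
`k`, for instance those of the points of a smooth curve with function field `F`, and a field `N` as
above between the geometrically pro-2 extension and `F_U`, such that `Gal(N/F) → G_k` has a
section. -/
def HasSection {k : Type u} [Field k] (t : k) (g : k[X]) : Prop :=
  ∃ (F : Type v) (Ω : Type w) (_ : Field F) (_ : Field Ω) (_ : Algebra k F) (_ : Algebra F Ω)
    (_ : Algebra k Ω) (_ : IsScalarTower k F Ω) (_ : IsAlgClosure F Ω) (x y : F)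
    (U : Set (ValuationSubring F)) (N : IntermediateField F Ω),
    algebraMap k F t * y ^ 2 = aeval x g ∧ (∀ O ∈ U, ∀ c : k, algebraMap k F c ∈ O) ∧
      TwoClosed k F Ω U N ∧ Nonempty (GaloisSection k F Ω N)

/-- The property `P` holds for the specialisations `h(b) y² = f(b, x)` in all points `b = (φ, s)` of the
affine line over `Spec R` with `z(b) ≠ 0`, with values in all fields `L` containing `K` with the property
`A`. -/
def AllFibres (K R : Type) [Field K] [CommRing R] [Algebra K R] (h : R[X]) (f : R[X][X]) (z : R[X])
    (A : ∀ (L : Type) [Field L] [Algebra K L], Prop) (P : ∀ (L : Type) [Field L], L → L[X] → Prop) :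
    Prop :=
  ∀ (L : Type) [Field L] [Algebra K L], A L → ∀ (φ : R →ₐ[K] L) (s : L),
    z.eval₂ (φ : R →+* L) s ≠ 0 →
      P L (h.eval₂ (φ : R →+* L) s) (f.map (eval₂RingHom (φ : R →+* L) s))

/-- **Rational points over finitely generated fields and sections of the specialisations.**  Suppose
that `f` is monic of even degree at least 4 and splits into factors `x - θ_i(s)` with `θ_i` in `F̄[s]`,
`F` the fraction field of `R`, and that for some `c ∈ R` the polynomial `h` has a zero of odd order at
`s = c` and `f(c, x)` is separable over `F`.  Then the following are equivalent: (1) `f` has a root in
`F[s]`; (2) the curve `h y² = f(x)` has a rational point over the fraction field `k` of `R[s]`; (3) over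
some nonempty open subset `z ≠ 0` of the affine line over `Spec R` all fibres over points with values in
all fields `L` containing `K` have `L`-rational points; (4) over some nonempty open subset all fibres over
points with values in finite extensions `L` of `K` have an `L`-rational point, or a section for a curve
over the fibre. -/
theorem result (K : Type) [Field K] [NumberField K] (R : Type) [CommRing R] [IsDomain R]
    [Algebra K R] [Algebra.FiniteType K R] (h : R[X]) (f : R[X][X]) (hf : f.Monic)
    (hn : 4 ≤ f.natDegree) (hev : Even f.natDegree)
    (hsplit : (f.map (mapRingHom (algebraMap R (AlgebraicClosure (FractionRing R))))).Splits)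
    (c : R) (hh : h ≠ 0) (hc : Odd (h.rootMultiplicity c))
    (hsep : ((f.map (evalRingHom c)).map (algebraMap R (FractionRing R))).Separable) :
    List.TFAE [
      ∃ θ : (FractionRing R)[X], (f.map (mapRingHom (algebraMap R (FractionRing R)))).eval θ = 0,
      HasPoint (algebraMap R[X] (FractionRing R[X]) h) (f.map (algebraMap R[X] (FractionRing R[X]))),
      ∃ z : R[X], z ≠ 0 ∧ AllFibres K R h f z (fun _ _ _ => True) fun _ _ t g => HasPoint t g,
      ∃ z : R[X], z ≠ 0 ∧ AllFibres K R h f z (fun L _ _ => FiniteDimensional K L)
        fun _ _ t g => HasPoint t g ∨ HasSection.{0, v, w} t g] := by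
  tfae_have 3 → 4 := by
    rintro ⟨z, hz, H⟩
    exact ⟨z, hz, fun L _ _ _ φ s hs => Or.inl (H L trivial φ s hs)⟩
  tfae_have 4 → 1 := by
    rintro ⟨z, hz, H⟩
    by_contra hno
    push Not at hno
    obtain ⟨L, _, _, _, _, φ, s, hzs, hobs⟩ := Run7.h846.mainS K R 2 Nat.prime_two h f hf (by omega)
      (even_iff_two_dvd.1 hev) hsplit c hh (by
        rw [← even_iff_two_dvd]
        exact Nat.not_even_iff_odd.2 hc) hsep z hz hno
    rcases H L inferInstance φ s hzs with (⟨x, y, hxy⟩ | ⟨r, hr⟩) | hsec
    · exact Run7.h846.obs_noPoint two_ne_zero hobs x y hxy
    · exact hobs.1 r hr
    · obtain ⟨F, Ω, _, _, _, _, _, _, hΩ, x, y, U, N, hxy, hU, hN, ⟨G⟩⟩ := hsec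
      have hcl : IsAlgClosed Ω := IsAlgClosure.isAlgClosed F
      have halg : Algebra.IsAlgebraic F Ω := IsAlgClosure.isAlgebraic
      have hN' : Run7.h846.Adm L U N :=
        ⟨fun z hz => hN.le hz, fun c => hN.const _ (isAlgebraic_iff_isIntegral.2 c.2), hN.sqrt⟩
      exact Run7.h846.obs_noSection hobs U hU hN' ⟨G.toHom, G.cont, G.compat⟩ x y hxy
  tfae_have 1 → 2 := by
    rintro ⟨θ, hθ⟩
    obtain ⟨b, hb, H⟩ := Run7.h846.root_fibre R (FractionRing R) f θ hθ
    let Q := FractionRing R[X]
    obtain ⟨x₀, hx₀⟩ := H Q ((algebraMap R[X] Q).comp C) (algebraMap R[X] Q X) (by
      rw [RingHom.comp_apply, Ne, IsFractionRing.to_map_eq_zero_iff, C_eq_zero]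
      exact hb)
    have hev : eval₂RingHom ((algebraMap R[X] Q).comp C) (algebraMap R[X] Q X) = algebraMap R[X] Q := by
      ext a
      · simp
      · simp
    rw [hev] at hx₀
    left
    refine ⟨x₀, 0, ?_⟩
    rw [zero_pow two_ne_zero, mul_zero]
    exact hx₀.symm
  tfae_have 2 → 3 := by
    intro hP
    obtain ⟨z, hz, H⟩ := Run7.h438.SI.spread_rational 2 R[X] (FractionRing R[X]) h f hP
    exact ⟨z, hz, fun L _ _ _ φ s hs => H L (eval₂RingHom (φ : R →+* L) s) hs⟩
  tfae_finish

end Pool.Agent.Results.MP_e66f84_ag.SectionsInFamilies
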