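import Pool.Agent.Run7.h846.MainO
import Pool.Agent.Run7.h846.MainS
import Pool.Agent.Run7.h846.QObs
import Pool.Agent.Run7.h846.Spread
import Pool.Agent.Run7.h846.DesM
import Pool.Agent.Run7.h438.Spread1

/-!
# Superelliptic curves over finitely generated fields: rational points and sections of the
specialisations, `q` odd

Let `K` be a number field, `R` a finitely generated `K`-algebra which is a domain, with fraction field
`F`, and `s` the coordinate of the affine line over `Spec R`; so `k = F(s)` is a field finitely generated
over `ℚ`.  Let `q` be an odd prime, `h ∈ R[s]` nonzero and `f ∈ R[s][x]` monic in `x` of degree `n > 0`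
divisible by `q`.  We consider the superelliptic curve `X : h(s) y ^ q = f(s, x)`, of genus
`(q - 1)(n - 2)/2`, over `k` and its specialisations `X_b : h(b) y ^ q = f(b, x)` in the points `b` of the
affine line over `Spec R` with values in fields `L` containing `K`.  We suppose that `f` is a product of
factors `x - θ_i(s)` with `θ_i ∈ F̄[s]` (they may be permuted by the Galois group of `F`) and that for
some `c ∈ R` the order of `h` at `s = c` is prime to `q` and `f(c, x)` is separable.

**Theorem.**  (I) The following are equivalent.
(1) `f` has a root in `F[s]`.
(2) The curve `X` has a `k`-rational point.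
(3) There is a nonempty open subset of the base such that for ALL fields `L` containing `K`, for
instance all those finitely generated over `ℚ`, and all `L`-points `b` of this open subset the curve
`X_b` has an `L`-rational point.
(4) There is a nonempty open subset of the base such that for all number fields `L` containing `K` and
all `L`-points `b` of this open subset the curve `X_b` has an `L`-rational point, or the geometrically
pro-`q` fundamental group of `X_b`, or any larger quotient of the absolute Galois group of the function
field of `X_b`, has a section over `G_L`, or there is a smooth curve (or variety) `U` over `L` with a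
dominant map to `X_b` for which `π₁(U) → G_L` has a section.
(II) The following are equivalent.
(1) `f` has a monic factor in `F[s][x]` of degree prime to `q`.
(2) The curve `X` has a point over an extension of `k` of degree prime to `q`.
(3) There is a nonempty open subset of the base such that for ALL fields `L` containing `K` and
all `L`-points `b` of this open subset `X_b` has a point over a finite extension of `L` of degree prime
to `q`.
(4) There is a nonempty open subset of the base such that for all number fields `L` containing `K` and
all `L`-points `b` of this open subset there is a finite extension `L'` of `L` of degree prime to `q`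
such that `X_b` has an `L'`-rational point or there is a section as in (I) (4), over `G_{L'}`.

So if `X` has no `k`-rational point (no point over an extension of `k` of degree prime to `q`), then
there is a Zariski dense set of closed points `b` of the base, with residue fields `L`, such that (over
ALL finite extensions of `L` of degree prime to `q`) there are no rational points and no Galois sections
for `X_b`, not even for the geometrically pro-`q` fundamental group, and for the curves which dominate
it, such as the curves `h(b) y ^ m = f(b, x)`, `q ∣ m`.  As Galois sections of `X` over `k` specialise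
(known, for good reduction in characteristic zero), `X` has a Galois section over `k` if and only if it
has a `k`-rational point.  Nothing is assumed about local points, the bad places or about roots of unity;
`f` may have roots modulo all primes, and then the obstruction is a global one.

The fundamental group is described through valuations.  Let `U` be a smooth geometrically connected
curve over `k` with function field `E`, let `Ω` be an algebraic closure of `E`, and let `E_U` be the
maximal extension of `E` inside `Ω` which is unramified over the closed points of `U`, that is, over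
their local rings, which are valuation rings of `E`.  Then `π₁(U) = Gal(E_U/E)`, and the map
`π₁(U) → G_k` is the restriction of automorphisms to the algebraic closure of `k` in `Ω`.

The implications from (4) to (1), the main part, are theorems of helper846, first handed in as
`MP_c1dca2_ag.SectionsOfSuperellipticFamilies`, where the question is about curves over number fields.
(I) (2) and the statements (3) for all fields `L` are added here.

Proof.  One specialises `R` to a number field `L₀` such that the Galois group of the splitting field
`M(s)` of `f` is kept, and constructs a finite extension `L` of `L₀` and a point `s₀ ∈ L`, close to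
`s = c` at exactly one place, such that the norm of `s₀` is a prime number `p` and at finitely many
auxiliary primes everything is totally ramified (`Run7/h846`: `Tower2`, `Nf`, `NfO`).  Let `L'` be `L` (or
an extension of degree prime to `q`), `E = L' M`, `Θ_i` the roots of `f(s₀, x)` in `E`, and let `σ` be a
section for the fibre over `L'`.  The ratios `(x - Θ_i)/(x - Θ_0)` are `q`-th powers in the maximal
geometrically pro-`q` extension, so `σ` gives classes `κ_i ∈ E^*/E^{*q}` with
`κ_i β_i ^ q = (x - Θ_i)/(x - Θ_0)`, `β_i` fixed by `σ(G_E)` (`QCls`).  New here is the determination of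
their valuations at the good places `W` of `E` (`QAbs`, `QAbsI`, `QLoc`), for the action of `G_E` given by the section
over `L'`: if `q` divides the valuation of `h(s₀)` at `W`, the classes are unramified (theory of
helper14 and helper51); otherwise the section fixes a valuation ring above a branch point `Θ_r` (theory of
helper157), a function fixed by the section with a unit value there has a value fixed by the
decomposition group, and so the valuations of the classes are those of this branch point.  The norms of
the `κ_i` to `M` lie in finitely many classes, and by the choice of the auxiliary primes they are powers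
of `p` up to `q`-th powers.  So the root `Θ_i` which is distinguished by the valuations above `p` is
fixed by `Gal(M/L₀)`; in the situation of (II) one gets an orbit of roots of length prime to `q`.
-/

set_option autoImplicit false

open Polynomial

namespace Pool.Agent.Results.MP_e66f84_ag.SectionsOfSuperellipticFamilies

section definitions

variable (ℓ : ℕ) (k F Ω : Type) [Field k] [Field F] [Field Ω] [Algebra k F] [Algebra F Ω]
  [Algebra k Ω]

/-- The inertia group of the valuation ring `W` of `Ω`, as a subgroup of `Gal(Ω/F)`: the
automorphisms of `Ω` over `F` that map `W` onto itself and act as the identity on its residue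
field. -/
noncomputable def inertia (W : ValuationSubring Ω) : Subgroup (Ω ≃ₐ[F] Ω) :=
  (W.inertiaSubgroup F).map (W.decompositionSubgroup F).subtype

/-- `F_U`, for a set `U` of valuation rings of `F`: the elements of `Ω` fixed by the inertia groups
of all valuation rings `W` of `Ω` with `W ∩ F ∈ U`.  If `Ω` is an algebraic closure of a field `F`
of characteristic zero, this is the maximal extension of `F` in `Ω` unramified over `U`. -/
noncomputable def unramified (U : Set (ValuationSubring F)) : IntermediateField F Ω :=
  ⨅ W : {W : ValuationSubring Ω // W.comap (algebraMap F Ω) ∈ U},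
    IntermediateField.fixedField (inertia F Ω W.1)

/-- `k̄ F`, the compositum of `F` and of the algebraic closure of `k` in `Ω`. -/
noncomputable def geomField : IntermediateField F Ω :=
  IntermediateField.adjoin F (algebraicClosure k Ω : Set Ω)

/-- The algebraic extension `L` of `K` in `Ω` is unramified at all valuation rings of `Ω` that
contain `k`: every nonzero element of `L` has the same valuation as an element of `K`.  (If `K` is
a function field of one variable over the algebraic closure of `k` and `k` has characteristic zero,
then this says that `L/K` is unramified over all points of the smooth projective curve.) -/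
def Unramified {k K Ω : Type} [Field k] [Field K] [Field Ω] [Algebra k Ω] [Algebra K Ω]
    (L : IntermediateField K Ω) : Prop :=
  ∀ W : ValuationSubring Ω, (∀ c : k, algebraMap k Ω c ∈ W) → ∀ z ∈ L, z ≠ 0 →
    ∃ t : K, t ≠ 0 ∧ z / algebraMap K Ω t ∈ W ∧ (z / algebraMap K Ω t)⁻¹ ∈ W

/-- `L/K` is a finite Galois extension whose degree is a power of `ℓ`. -/
def FiniteProEll (ℓ : ℕ) {K Ω : Type} [Field K] [Field Ω] [Algebra K Ω]
    (L : IntermediateField K Ω) : Prop :=
  FiniteDimensional K L ∧ IsGalois K L ∧ ∃ m : ℕ, Module.finrank K L = ℓ ^ m

/-- The maximal unramified pro-`ℓ` extension of `K` in `Ω`: the compositum of the finite Galois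
extensions of `K` whose degree is a power of `ℓ` and which are unramified. -/
noncomputable def maxProEll (ℓ : ℕ) (k K Ω : Type) [Field k] [Field K] [Field Ω] [Algebra k Ω]
    [Algebra K Ω] : IntermediateField K Ω :=
  ⨆ L : {L : IntermediateField K Ω // FiniteProEll ℓ L ∧ Unramified (k := k) L}, L.1

/-- `M`, the maximal unramified pro-`ℓ` extension of `k̄ F` in `Ω`, as an extension of `F`.  If `F` is
the function field of a smooth projective curve over `k`, then `Gal(M/F)` is its geometrically pro-`ℓ`
fundamental group. -/
noncomputable def proEllField : IntermediateField F Ω :=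
  (maxProEll ℓ k (geomField k F Ω) Ω).restrictScalars F

/-- The sections of `Gal(N/F) → G_k`: the continuous homomorphisms `s` from
`G_k = Gal(k̄/k)` to `Gal(N/F)`, where `k̄` is the algebraic closure of `k` in `Ω`, such that
`s(σ)` acts as `σ` on the elements of `k̄` in `N`. -/
structure GaloisSection (N : IntermediateField F Ω) where
  /-- the homomorphism `Gal(k̄/k) → Gal(N/F)` -/
  toHom : (algebraicClosure k Ω ≃ₐ[k] algebraicClosure k Ω) →* (N ≃ₐ[F] N)
  cont : Continuous toHom
  compat : ∀ σ (c : algebraicClosure k Ω) (z : N), (z : Ω) = c → (toHom σ z : Ω) = σ c

end definitions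

/-- The smooth projective curve `t y ^ q = g(x)`, where `t ≠ 0` and `g` is monic and separable of degree
divisible by `q`, has a point over `k`: an affine point, or a point at infinity (`t` is a `q`-th
power). -/
def HasPoint (q : ℕ) {k : Type} [Field k] (t : k) (g : k[X]) : Prop :=
  (∃ x y : k, t * y ^ q = g.eval x) ∨ ∃ r : k, t * r ^ q = 1

/-- There is a section of the fundamental group of a curve over the curve `t y ^ q = g(x)`: there are a
field `F` over `k` that contains a point `(x, y)` of the curve, for instance the function field of the
curve or of a curve which dominates it, an algebraic closure `Ω` of `F` and a set `U` of valuation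
rings of `F` over `k`, for instance those of the points of a smooth curve with function field `F`, such
that `Gal(F_U/F) → G_k` has a section. -/
def HasSection (q : ℕ) {k : Type} [Field k] (t : k) (g : k[X]) : Prop :=
  ∃ (F Ω : Type) (_ : Field F) (_ : Field Ω) (_ : Algebra k F) (_ : Algebra F Ω)
    (_ : Algebra k Ω) (_ : IsScalarTower k F Ω) (_ : IsAlgClosure F Ω) (x y : F)
    (U : Set (ValuationSubring F)),
    algebraMap k F t * y ^ q = aeval x g ∧ (∀ O ∈ U, ∀ c : k, algebraMap k F c ∈ O) ∧
      Nonempty (GaloisSection k F Ω (unramified F Ω U))

/-- There is a section of the geometrically pro-`q` fundamental group of the curve `t y ^ q = g(x)`, or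
of a larger group: `F = k(x, y)` is the function field of the curve, `Ω` an algebraic closure of `F`, `M`
the maximal unramified pro-`q` extension of `k̄ F`, and for some extension `N ⊇ M` of `F` in `Ω`, for
instance for `N = M`, there is a section of `Gal(N/F) → G_k`. -/
def HasProSection (q : ℕ) {k : Type} [Field k] (t : k) (g : k[X]) : Prop :=
  ∃ (F Ω : Type) (_ : Field F) (_ : Field Ω) (_ : Algebra k F) (_ : Algebra F Ω)
    (_ : Algebra k Ω) (_ : IsScalarTower k F Ω) (_ : IsAlgClosure F Ω) (x y : F)
    (N : IntermediateField F Ω),
    Transcendental k x ∧ algebraMap k F t * y ^ q = aeval x g ∧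
      IntermediateField.adjoin k {x, y} = (⊤ : IntermediateField k F) ∧
      proEllField q k F Ω ≤ N ∧ Nonempty (GaloisSection k F Ω N)

/-- The curve has a rational point, or there is a section. -/
def PointOrSection (q : ℕ) {k : Type} [Field k] (t : k) (g : k[X]) : Prop :=
  HasPoint q t g ∨ HasSection q t g ∨ HasProSection q t g

/-- The property `P` holds for the specialisations `h(b) y ^ q = f(b, x)` in all points `b = (φ, s)` of the
affine line over `Spec R` with `z(b) ≠ 0`, with values in all fields `L` containing `K` with the property
`A`. -/
def AllFibres (K R : Type) [Field K] [CommRing R] [Algebra K R] (h : R[X]) (f : R[X][X]) (z : R[X])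
    (A : ∀ (L : Type) [Field L] [Algebra K L], Prop) (P : ∀ (L : Type) [Field L], L → L[X] → Prop) :
    Prop :=
  ∀ (L : Type) [Field L] [Algebra K L], A L → ∀ (φ : R →ₐ[K] L) (s : L),
    z.eval₂ (φ : R →+* L) s ≠ 0 →
      P L (h.eval₂ (φ : R →+* L) s) (f.map (eval₂RingHom (φ : R →+* L) s))

/-- The property `P` holds for the curve `t y ^ q = g(x)` over some finite extension of `L` of degree
prime to `q`. -/
def OverPrime (q : ℕ) (P : ∀ (k : Type) [Field k], k → k[X] → Prop) (L : Type) [Field L] (t : L)
    (g : L[X]) : Prop :=
  ∃ (L' : Type) (_ : Field L') (_ : Algebra L L') (_ : FiniteDimensional L L'),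
    ¬ q ∣ Module.finrank L L' ∧ P L' (algebraMap L L' t) (g.map (algebraMap L L'))

lemma iSup_congr_prop {α : Type} [CompleteLattice α] {P Q : α → Prop} (h : ∀ L, P L ↔ Q L) :
    (⨆ L : {L // P L}, L.1) = ⨆ L : {L // Q L}, L.1 := by
  have h1 : P = Q := funext fun L => propext (h L)
  subst h1
  rfl

lemma proEll_eq (ℓ : ℕ) (k F Ω : Type) [Field k] [Field F] [Field Ω] [Algebra k F] [Algebra F Ω]
    [Algebra k Ω] : proEllField ℓ k F Ω = Pool.Agent.Y157.PS.geomPro ℓ k F Ω := by
  unfold proEllField Pool.Agent.Y157.PS.geomPro maxProEll Pool.Agent.Y157.PS.maxPro
  congr 1
  refine iSup_congr_prop fun L => ?_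
  constructor
  · rintro ⟨⟨h1, h2, h3⟩, h4⟩
    refine ⟨⟨h1, h2, h3⟩, fun W hW z hz hz0 => ?_⟩
    obtain ⟨t, ht, h5, h6⟩ := h4 W hW z hz hz0
    exact ⟨t, ht, div_ne_zero hz0 ((_root_.map_ne_zero _).2 ht), h5, h6⟩
  · rintro ⟨⟨h1, h2, h3⟩, h4⟩
    refine ⟨⟨h1, h2, h3⟩, fun W hW z hz hz0 => ?_⟩
    obtain ⟨t, ht, -, h5, h6⟩ := h4 W hW z hz hz0
    exact ⟨t, ht, h5, h6⟩

/-- the obstruction excludes points and sections -/
lemma obs_none {q : ℕ} (hq : q.Prime) {L : Type} [Field L] [NumberField L] {t : L} {g : L[X]}
    (hobs : Run7.h846.Obs q L t g) : ¬ PointOrSection q t g := by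
  rintro ((⟨x, y, hxy⟩ | ⟨r, hr⟩) | hsec | hsec)
  · exact Run7.h846.obs_noPoint hq.ne_zero hobs x y hxy
  · exact hobs.1 r hr
  · obtain ⟨F, Ω, _, _, _, _, _, _, hΩ, x, y, U, hxy, hU, ⟨G⟩⟩ := hsec
    have hcl : IsAlgClosed Ω := IsAlgClosure.isAlgClosed F
    have halg : Algebra.IsAlgebraic F Ω := IsAlgClosure.isAlgebraic
    exact Run7.h846.obs_noPi hq hobs U hU ⟨G.toHom, G.cont, G.compat⟩ x y hxy
  · obtain ⟨F, Ω, _, _, _, _, _, _, hΩ, x, y, N, hx, hxy, hF, hN, ⟨G⟩⟩ := hsec
    have hcl : IsAlgClosed Ω := IsAlgClosure.isAlgClosed F
    have halg : Algebra.IsAlgebraic F Ω := IsAlgClosure.isAlgebraic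
    rw [proEll_eq] at hN
    exact Run7.h846.obs_noProLarge hq hobs x y hx hxy hF N hN ⟨G.toHom, G.cont, G.compat⟩

/-- **Superelliptic curves over finitely generated fields.**  Let `q` be an odd prime.
Suppose that `f` is monic of positive degree divisible by `q` and splits into factors `x - θ_i(s)` with
`θ_i` in `F̄[s]`, `F` the fraction field of `R`, and that for some `c ∈ R` the order of `h` at `s = c` is
prime to `q` and `f(c, x)` is separable over `F`.  Let `k` be the fraction field of `R[s]`.
(I) The following are equivalent: `f` has a root in `F[s]`; the curve `h y ^ q = f(x)` has a point over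
`k`; over some nonempty open subset `z ≠ 0` of the affine line over `Spec R` all fibres over points with
values in all fields `L` containing `K` have `L`-rational points; over some nonempty open subset all
fibres over points with values in finite extensions `L` of `K` have an `L`-rational point, or a section
of the geometrically pro-`q` fundamental group or of the fundamental group of a curve over the fibre.
(II) The following are equivalent: `f` has a monic factor in `F[s][x]` of degree prime to `q`; the curve
has a point over an extension of `k` of degree prime to `q`; over some nonempty open subset all fibres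
over points with values in all fields `L` containing `K` have points over extensions of `L` of degree
prime to `q`; over some nonempty open subset all fibres over points with values in finite extensions `L`
of `K` have, over some extension of `L` of degree prime to `q`, a point or a section as before. -/
theorem result (K : Type) [Field K] [NumberField K] (R : Type) [CommRing R] [IsDomain R]
    [Algebra K R] [Algebra.FiniteType K R] (q : ℕ) (hq : q.Prime) (hq2 : q ≠ 2) (h : R[X])
    (f : R[X][X]) (hf : f.Monic) (hn : 0 < f.natDegree) (hqn : q ∣ f.natDegree)
    (hsplit : (f.map (mapRingHom (algebraMap R (AlgebraicClosure (FractionRing R))))).Splits)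
    (c : R) (hh : h ≠ 0) (hc : ¬ q ∣ h.rootMultiplicity c)
    (hsep : ((f.map (evalRingHom c)).map (algebraMap R (FractionRing R))).Separable) :
    List.TFAE [
      ∃ θ : (FractionRing R)[X], (f.map (mapRingHom (algebraMap R (FractionRing R)))).eval θ = 0,
      HasPoint q (algebraMap R[X] (FractionRing R[X]) h) (f.map (algebraMap R[X] (FractionRing R[X]))),
      ∃ z : R[X], z ≠ 0 ∧ AllFibres K R h f z (fun _ _ _ => True) fun _ _ t g => HasPoint q t g,
      ∃ z : R[X], z ≠ 0 ∧ AllFibres K R h f z (fun L _ _ => FiniteDimensional K L)
        fun _ _ t g => PointOrSection q t g] ∧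
    List.TFAE [
      ∃ P : (FractionRing R)[X][X], P.Monic ∧
        P ∣ f.map (mapRingHom (algebraMap R (FractionRing R))) ∧ ¬ q ∣ P.natDegree,
      OverPrime q (fun _ _ => HasPoint q) (FractionRing R[X]) (algebraMap R[X] (FractionRing R[X]) h)
        (f.map (algebraMap R[X] (FractionRing R[X]))),
      ∃ z : R[X], z ≠ 0 ∧ AllFibres K R h f z (fun _ _ _ => True)
        fun L _ => OverPrime q (fun _ _ => HasPoint q) L,
      ∃ z : R[X], z ≠ 0 ∧ AllFibres K R h f z (fun L _ _ => FiniteDimensional K L)
        fun L _ => OverPrime q (fun _ _ => PointOrSection q) L] := by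
  have h3 : 3 ≤ f.natDegree := by
    have h1 := Nat.le_of_dvd hn hqn
    have h2 := hq.two_le
    omega
  constructor
  · tfae_have 3 → 4 := by
      rintro ⟨z, hz, H⟩
      exact ⟨z, hz, fun L _ _ _ φ s hs => Or.inl (H L trivial φ s hs)⟩
    tfae_have 4 → 1 := by
      rintro ⟨z, hz, H⟩
      by_contra hno
      push Not at hno
      obtain ⟨L, _, _, _, _, φ, s, hzs, hobs⟩ := Run7.h846.mainS K R q hq h f hf h3 hqn hsplit c hh
        hc hsep z hz hno
      exact obs_none hq hobs (H L inferInstance φ s hzs)
    tfae_have 1 → 2 := by
      rintro ⟨θ, hθ⟩
      obtain ⟨b, hb, H⟩ := Run7.h846.root_fibre R (FractionRing R) f θ hθ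
      let Q := FractionRing R[X]
      obtain ⟨x₀, hx₀⟩ := H Q ((algebraMap R[X] Q).comp C) (algebraMap R[X] Q X) (by
        rw [RingHom.comp_apply, Ne, IsFractionRing.to_map_eq_zero_iff, C_eq_zero]
        exact hb)
      have hev : eval₂RingHom ((algebraMap R[X] Q).comp C) (algebraMap R[X] Q X) = algebraMap R[X] Q := by
        ext a
        · simp
        · simp
      rw [hev] at hx₀
      left
      refine ⟨x₀, 0, ?_⟩
      rw [zero_pow hq.ne_zero, mul_zero]
      exact hx₀.symm
    tfae_have 2 → 3 := by
      intro hP
      obtain ⟨z, hz, H⟩ := Run7.h438.SI.spread_rational q R[X] (FractionRing R[X]) h f hP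
      exact ⟨z, hz, fun L _ _ _ φ s hs => H L (eval₂RingHom (φ : R →+* L) s) hs⟩
    tfae_finish
  · tfae_have 3 → 4 := by
      rintro ⟨z, hz, H⟩
      refine ⟨z, hz, fun L _ _ _ φ s hs => ?_⟩
      obtain ⟨L', i1, i2, i3, hL', hP⟩ := H L trivial φ s hs
      exact ⟨L', i1, i2, i3, hL', Or.inl hP⟩
    tfae_have 4 → 1 := by
      rintro ⟨z, hz, H⟩
      by_contra hno
      push Not at hno
      obtain ⟨L, _, _, _, _, φ, s, hzs, hobs⟩ := Run7.h846.mainO K R q hq h f hf h3 hqn
        (fun h2 => absurd h2 hq2) hsplit c hh hc hsep z hz hno
      obtain ⟨L', _, _, _, hL', hsec⟩ := H L inferInstance φ s hzs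
      have hnf : NumberField L' := by
        have h1 : CharZero L' := charZero_of_injective_algebraMap (algebraMap L L').injective
        have h2 : IsScalarTower ℚ L L' := IsScalarTower.of_algebraMap_eq fun x => by
          rw [eq_ratCast, eq_ratCast, map_ratCast]
        exact { to_charZero := h1, to_finiteDimensional := FiniteDimensional.trans ℚ L L' }
      exact obs_none hq (hobs L' hL') hsec
    tfae_have 1 → 2 := by
      rintro ⟨P, hPm, hPf, hPq⟩
      obtain ⟨z₀, hz₀, H⟩ := Run7.h846.factor_fibre q R (FractionRing R) f P hPm hPf hPq
      let Q := FractionRing R[X]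
      obtain ⟨r, hr1, hr2, hr3⟩ := H Q ((algebraMap R[X] Q).comp C) (algebraMap R[X] Q X) (by
        rw [RingHom.comp_apply, Ne, IsFractionRing.to_map_eq_zero_iff, C_eq_zero]
        exact hz₀)
      have hev : eval₂RingHom ((algebraMap R[X] Q).comp C) (algebraMap R[X] Q X) = algebraMap R[X] Q := by
        ext a
        · simp
        · simp
      rw [hev] at hr2
      have : Fact (Irreducible r) := ⟨hr1⟩
      have hfin : FiniteDimensional Q (AdjoinRoot r) := (AdjoinRoot.powerBasis hr1.ne_zero).finite
      refine ⟨AdjoinRoot r, inferInstance, inferInstance, hfin, ?_, ?_⟩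
      · rw [(AdjoinRoot.powerBasis hr1.ne_zero).finrank, AdjoinRoot.powerBasis_dim]
        exact hr3
      · left
        refine ⟨AdjoinRoot.root r, 0, ?_⟩
        rw [zero_pow hq.ne_zero, mul_zero, eval_map]
        obtain ⟨w, hw⟩ := hr2
        have h1 : eval₂ (algebraMap Q (AdjoinRoot r)) (AdjoinRoot.root r) r = 0 :=
          AdjoinRoot.eval₂_root r
        rw [hw, eval₂_mul, h1, zero_mul]
    tfae_have 2 → 3 := by
      rintro ⟨E, _, _, _, hE, hP⟩
      have hchar : CharZero R := charZero_of_injective_algebraMap (algebraMap K R).injective
      have hcharQ : CharZero (FractionRing R[X]) :=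
        charZero_of_injective_algebraMap (IsFractionRing.injective R[X] (FractionRing R[X]))
      obtain ⟨z, hz, H⟩ := Run7.h846.spread_point q R[X] (FractionRing R[X]) h f E hE hP
      refine ⟨z, hz, fun L _ _ _ φ s hs => ?_⟩
      exact H L (eval₂RingHom (φ : R →+* L) s) hs
    tfae_finish

end Pool.Agent.Results.MP_e66f84_ag.SectionsOfSuperellipticFamilies
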