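import Pool.Agent.Run7.h846.MainO
import Pool.Agent.Run7.h846.SecObs
import Pool.Agent.Run7.h846.Spread

/-!
# No sections over any extension of odd degree, for the specialisations of a curve over a finitely
generated field

Let `K` be a number field, `R` a finitely generated `K`-algebra which is a domain, with fraction field
`F`, and `s` the coordinate of the affine line over `Spec R`; so `k = F(s)` is a field finitely generated
over `ℚ`.  Let `h ∈ R[s]` be nonzero and let `f ∈ R[s][x]` be monic in `x` of degree `n = 2 g + 2`
divisible by `4`.  We consider the hyperelliptic curve `X : h(s) y² = f(s, x)`, of odd genus `g`, over `k`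
and its specialisations `X_b : h(b) y² = f(b, x)` in the points `b` of the affine line over `Spec R` with
values in fields `L` containing `K`.  We suppose that `f` is a product of factors `x - θ_i(s)` with
`θ_i ∈ F̄[s]` (they may be permuted by the Galois group of `F`) and that for some `c ∈ R` the function
`h` has a zero of odd order at `s = c` and `f(c, x)` is separable.

**Theorem.**  The following are equivalent.
(1) `f` has a monic factor in `F[s][x]` of odd degree.
(2) The curve `X` has a point over a finite extension of `k` of odd degree.
(3) There is a nonempty open subset of the base such that for ALL fields `L` containing `K`, for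
instance all those finitely generated over `ℚ`, and all `L`-points `b` of this open subset the curve
`X_b` has a point over a finite extension of `L` of odd degree.
(4) There is a nonempty open subset of the base such that for all number fields `L` containing `K` and
all `L`-points `b` of this open subset there is a finite extension `L'` of `L` of odd degree such that
`X_b` has an `L'`-rational point, or there is a smooth curve (or variety) `U` over `L'` with a dominant
map to `X_b`, for instance the projective curve `X_b` over `L'` or an open part of it, for which the
geometrically pro-2 fundamental group, or any larger quotient of the fundamental group, has a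
section.

So for these curves `X` of odd genus `g ≥ 3` over finitely generated fields: if `X` has no point of odd
degree over `k`, then there is a Zariski dense set of closed points `b` of the base, with residue fields
`L`, such that over ALL finite extensions `L'` of `L` of odd degree the curve `X_b` has no Galois
sections, and neither do the curves which dominate it.  Nothing is assumed about local points or
the bad places; `f` may have roots modulo all primes.  The condition that `n` is divisible by `4` cannot
be replaced by `n` even: if `n = 2 m`, `m` odd, and `f` is the norm of a polynomial `g` of degree `m`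
over a quadratic extension, then the class of the sum of the points `(θ, 0)`, `g(θ) = 0`, is a
rational divisor class of odd degree on all fibres.

The fundamental group is described through valuations.  Let `U` be a smooth geometrically connected
curve over `k` with function field `F`, let `Ω` be an algebraic closure of `F`, and let `F_U` be the
maximal extension of `F` inside `Ω` which is unramified over the closed points of `U`, that is, over
their local rings, which are valuation rings of `F`.  Then `π₁(U) = Gal(F_U/F)`, and the map
`π₁(U) → G_k` is the restriction of automorphisms to the algebraic closure of `k` in `Ω`.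

This is a theorem of helper846, first handed in as `MP_896029_ag.SectionsOverOddExtensions` for the
valuative form of the section conjecture for curves over number fields and local fields; here (3) is
stated for all fields `L` containing `K` in place of number fields.

Proof.  Let (1) be wrong.  One specialises `R` to a number field `L₀` such that the Galois group of the
splitting field `M(s)` of `f` is kept, and constructs a finite extension `L` of `L₀` and a point
`s₀ ∈ L`, close to `s = c` at exactly one place, such that the norm of `s₀` is a prime number
`p` and at finitely many auxiliary primes everything is totally ramified (`Run7/h846/Tower2`, `NfO`).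
Let `L' / L` be of odd degree, `E' = L' M` with the roots `Θ_i` of `f(s₀, x)`, and let `σ` be a section
for the fibre over `L'`.  It gives classes `κ_i ∈ E'^*/E'^{*2}` with
`κ_i β_i² = (x - Θ_i)/(x - Θ_0)`, `β_i` fixed by `σ(G_{E'})`.  By the theory of the sections at a place
of good or multiplicative type (parts SecC, SecE of helper623, helper327, helper933 and others) the
valuations of these classes at the good places of `E'` have the same parities as those of a
point.  The norms `a_i` of the `κ_i` to `M` lie in finitely many classes, and by the choice of the
auxiliary primes they are powers of `p` up to squares.  Let `χ(i)` be the parity of the valuation of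
`a_i` at the place of `M` below the one where `s₀` is small.  The sum of the `χ(i)` is the product of
the order of `h` at `c` and of `[E' : L M]`, which are odd, and `χ` is fixed up to constants by the
subgroup `Gal(E' / L')` of `Gal(M / L₀)`, whose index divides `[L' : L]`.  As `4` divides `n` the
constants are zero, a Sylow 2-subgroup of this subgroup fixes some `i`, and the orbit of `i` gives a
factor of `f` of odd degree (`OExt`, `Grp`).
-/

set_option autoImplicit false

open Polynomial

namespace Pool.Agent.Results.MP_e66f84_ag.SectionsOverOddExtensions

universe u v w

section definitions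

variable (k : Type u) (F : Type v) (Ω : Type w) [Field k] [Field F] [Field Ω] [Algebra k F]
  [Algebra F Ω] [Algebra k Ω]

/-- The inertia group of the valuation ring `W` of `Ω`, as a subgroup of `Gal(Ω/F)`: the
automorphisms of `Ω` over `F` that map `W` onto itself and act as the identity on its residue
field. -/
noncomputable def inertia (W : ValuationSubring Ω) : Subgroup (Ω ≃ₐ[F] Ω) :=
  (W.inertiaSubgroup F).map (W.decompositionSubgroup F).subtype

/-- `F_U`, for a set `U` of valuation rings of `F`: the elements of `Ω` fixed by the inertia groups
of all valuation rings `W` of `Ω` with `W ∩ F ∈ U`.  If `Ω` is an algebraic closure of a field `F`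
of characteristic zero, this is the maximal extension of `F` in `Ω` unramified over `U`. -/
noncomputable def unramified (U : Set (ValuationSubring F)) : IntermediateField F Ω :=
  ⨅ W : {W : ValuationSubring Ω // W.comap (algebraMap F Ω) ∈ U},
    IntermediateField.fixedField (inertia F Ω W.1)

/-- `N` is a field between `F` and `F_U` which contains the elements of `Ω` which are algebraic over
`k` and contains every element of `F_U` whose square lies in `N`.  The largest such field is `F_U`,
and then `Gal(N/F) = π₁(U)`; the smallest one is the maximal pro-2 extension of `k̄ F` in `F_U`, and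
then `Gal(N/F)` is the geometrically pro-2 fundamental group of `U`. -/
structure TwoClosed (U : Set (ValuationSubring F)) (N : IntermediateField F Ω) : Prop where
  le : N ≤ unramified F Ω U
  const : ∀ c : Ω, IsAlgebraic k c → c ∈ N
  sqrt : ∀ α ∈ unramified F Ω U, α ^ 2 ∈ N → α ∈ N

/-- The sections of `Gal(N/F) → G_k`: the continuous homomorphisms `s` from
`G_k = Gal(k̄/k)` to `Gal(N/F)`, where `k̄` is the algebraic closure of `k` in `Ω`, such that
`s(σ)` acts as `σ` on the elements of `k̄`. -/
structure GaloisSection (N : IntermediateField F Ω) where
  /-- the homomorphism `Gal(k̄/k) → Gal(N/F)` -/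
  toHom : (algebraicClosure k Ω ≃ₐ[k] algebraicClosure k Ω) →* (N ≃ₐ[F] N)
  cont : Continuous toHom
  compat : ∀ σ (c : algebraicClosure k Ω) (z : N), (z : Ω) = c → (toHom σ z : Ω) = σ c

end definitions

/-- The smooth projective curve `t y² = g(x)`, where `t ≠ 0` and `g` is monic and separable of even
degree, has a point over `k`: an affine point, or a point at infinity (if `t` is a square). -/
def HasPoint {k : Type u} [Field k] (t : k) (g : k[X]) : Prop :=
  (∃ x y : k, t * y ^ 2 = g.eval x) ∨ ∃ r : k, t * r ^ 2 = 1

/-- There is a section for a curve over the curve `t y² = g(x)`: there are a field `F` over `k` that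
contains a point `(x, y)` of the curve, for instance the function field of the curve or of a curve
which dominates it, an algebraic closure `Ω` of `F`, a set `U` of valuation rings of `F` over
`k`, for instance those of the points of a smooth curve with function field `F`, and a field `N` as
above between the geometrically pro-2 extension and `F_U`, such that `Gal(N/F) → G_k` has a
section. -/
def HasSection {k : Type u} [Field k] (t : k) (g : k[X]) : Prop :=
  ∃ (F : Type v) (Ω : Type w) (_ : Field F) (_ : Field Ω) (_ : Algebra k F) (_ : Algebra F Ω)
    (_ : Algebra k Ω) (_ : IsScalarTower k F Ω) (_ : IsAlgClosure F Ω) (x y : F)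
    (U : Set (ValuationSubring F)) (N : IntermediateField F Ω),
    algebraMap k F t * y ^ 2 = aeval x g ∧ (∀ O ∈ U, ∀ c : k, algebraMap k F c ∈ O) ∧
      TwoClosed k F Ω U N ∧ Nonempty (GaloisSection k F Ω N)

/-- The property `P` holds for the specialisations `h(b) y² = f(b, x)` in all points `b = (φ, s)` of the
affine line over `Spec R` with `z(b) ≠ 0`, with values in all fields `L` containing `K` with the property
`A`. -/
def AllFibres (K R : Type) [Field K] [CommRing R] [Algebra K R] (h : R[X]) (f : R[X][X]) (z : R[X])
    (A : ∀ (L : Type) [Field L] [Algebra K L], Prop) (P : ∀ (L : Type) [Field L], L → L[X] → Prop) :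
    Prop :=
  ∀ (L : Type) [Field L] [Algebra K L], A L → ∀ (φ : R →ₐ[K] L) (s : L),
    z.eval₂ (φ : R →+* L) s ≠ 0 →
      P L (h.eval₂ (φ : R →+* L) s) (f.map (eval₂RingHom (φ : R →+* L) s))

/-- The property `Q` holds for the curve `t y² = g(x)` over some finite extension of `L` of odd
degree. -/
def OverOdd (Q : ∀ (k : Type) [Field k], k → k[X] → Prop) (L : Type) [Field L] (t : L)
    (g : L[X]) : Prop :=
  ∃ (L' : Type) (_ : Field L') (_ : Algebra L L') (_ : FiniteDimensional L L'),
    Odd (Module.finrank L L') ∧ Q L' (algebraMap L L' t) (g.map (algebraMap L L'))

/-- **Sections over extensions of odd degree, in families.**  Suppose that `f` is monic of degree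
divisible by 4 and splits into factors `x - θ_i(s)` with `θ_i` in `F̄[s]`, `F` the fraction field of
`R`, and that for some `c ∈ R` the polynomial `h` has a zero of odd order at `s = c` and `f(c, x)` is
separable over `F`.  Then the following are equivalent: (1) `f` has a monic factor in `F[s][x]` of odd
degree; (2) the generic fibre, over the fraction field `F(s)` of `R[s]`, has a point over an extension
of odd degree; (3) over some nonempty open subset `z ≠ 0` of the affine line over `Spec R` all fibres over
points with values in all fields `L` containing `K` have points over finite extensions of `L` of odd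
degree; (4) over some nonempty open subset all fibres over points with values in finite extensions `L`
of `K` have a point, or a section for a curve over the fibre, over some finite extension of `L` of odd
degree. -/
theorem result (K : Type) [Field K] [NumberField K] (R : Type) [CommRing R] [IsDomain R]
    [Algebra K R] [Algebra.FiniteType K R] (h : R[X]) (f : R[X][X]) (hf : f.Monic)
    (hn : 4 ≤ f.natDegree) (h4 : 4 ∣ f.natDegree)
    (hsplit : (f.map (mapRingHom (algebraMap R (AlgebraicClosure (FractionRing R))))).Splits)
    (c : R) (hh : h ≠ 0) (hc : Odd (h.rootMultiplicity c))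
    (hsep : ((f.map (evalRingHom c)).map (algebraMap R (FractionRing R))).Separable) :
    List.TFAE [
      ∃ P : (FractionRing R)[X][X], P.Monic ∧
        P ∣ f.map (mapRingHom (algebraMap R (FractionRing R))) ∧ Odd P.natDegree,
      OverOdd (fun _ _ => HasPoint) (FractionRing R[X]) (algebraMap R[X] (FractionRing R[X]) h)
        (f.map (algebraMap R[X] (FractionRing R[X]))),
      ∃ z : R[X], z ≠ 0 ∧ AllFibres K R h f z (fun _ _ _ => True)
        fun L _ => OverOdd (fun _ _ => HasPoint) L,
      ∃ z : R[X], z ≠ 0 ∧ AllFibres K R h f z (fun L _ _ => FiniteDimensional K L)
        fun L _ => OverOdd (fun _ _ t g => HasPoint t g ∨ HasSection.{0, v, w} t g) L] := by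
  tfae_have 3 → 4 := by
    rintro ⟨z, hz, H⟩
    refine ⟨z, hz, fun L _ _ _ φ s hs => ?_⟩
    obtain ⟨L', i1, i2, i3, hL', hP⟩ := H L trivial φ s hs
    exact ⟨L', i1, i2, i3, hL', Or.inl hP⟩
  tfae_have 4 → 1 := by
    rintro ⟨z, hz, H⟩
    by_contra hno
    push Not at hno
    obtain ⟨L, _, _, _, _, φ, s, hzs, hobs⟩ := Run7.h846.mainO K R 2 Nat.prime_two h f hf (by omega)
      ((by norm_num : 2 ∣ 4).trans h4) (fun _ => h4) hsplit c hh (by
        rw [← even_iff_two_dvd]
        exact Nat.not_even_iff_odd.2 hc) hsep z hz (fun P hP1 hP2 => by
        rw [← even_iff_two_dvd]
        exact Nat.not_odd_iff_even.1 (hno P hP1 hP2))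
    obtain ⟨L', _, _, _, hL', hsec⟩ := H L inferInstance φ s hzs
    have hnf : NumberField L' := by
      have h1 : CharZero L' := charZero_of_injective_algebraMap (algebraMap L L').injective
      have h2 : IsScalarTower ℚ L L' := IsScalarTower.of_algebraMap_eq fun x => by
        rw [eq_ratCast, eq_ratCast, map_ratCast]
      exact { to_charZero := h1, to_finiteDimensional := FiniteDimensional.trans ℚ L L' }
    have hobs' := hobs L' (by
      rw [← even_iff_two_dvd]
      exact Nat.not_even_iff_odd.2 hL')
    rcases hsec with (⟨x, y, hxy⟩ | ⟨r, hr⟩) | hsec
    · exact Run7.h846.obs_noPoint two_ne_zero hobs' x y hxy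
    · exact hobs'.1 r hr
    · obtain ⟨F, Ω, _, _, _, _, _, _, hΩ, x, y, U, N, hxy, hU, hN, ⟨G⟩⟩ := hsec
      have hcl : IsAlgClosed Ω := IsAlgClosure.isAlgClosed F
      have halg : Algebra.IsAlgebraic F Ω := IsAlgClosure.isAlgebraic
      have hN' : Run7.h846.Adm L' U N :=
        ⟨fun z hz => hN.le hz, fun c => hN.const _ (isAlgebraic_iff_isIntegral.2 c.2), hN.sqrt⟩
      exact Run7.h846.obs_noSection hobs' U hU hN' ⟨G.toHom, G.cont, G.compat⟩ x y hxy
  tfae_have 1 → 2 := by
    rintro ⟨P, hPm, hPf, hPq⟩
    obtain ⟨z₀, hz₀, H⟩ := Run7.h846.factor_fibre 2 R (FractionRing R) f P hPm hPf (by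
      rw [← even_iff_two_dvd]
      exact Nat.not_even_iff_odd.2 hPq)
    let Q := FractionRing R[X]
    obtain ⟨r, hr1, hr2, hr3⟩ := H Q ((algebraMap R[X] Q).comp C) (algebraMap R[X] Q X) (by
      rw [RingHom.comp_apply, Ne, IsFractionRing.to_map_eq_zero_iff, C_eq_zero]
      exact hz₀)
    have hev : eval₂RingHom ((algebraMap R[X] Q).comp C) (algebraMap R[X] Q X) = algebraMap R[X] Q := by
      ext a
      · simp
      · simp
    rw [hev] at hr2
    have : Fact (Irreducible r) := ⟨hr1⟩
    have hfin : FiniteDimensional Q (AdjoinRoot r) := (AdjoinRoot.powerBasis hr1.ne_zero).finite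
    refine ⟨AdjoinRoot r, inferInstance, inferInstance, hfin, ?_, ?_⟩
    · rw [(AdjoinRoot.powerBasis hr1.ne_zero).finrank, AdjoinRoot.powerBasis_dim]
      rw [← even_iff_two_dvd] at hr3
      exact Nat.not_even_iff_odd.1 hr3
    · left
      refine ⟨AdjoinRoot.root r, 0, ?_⟩
      rw [zero_pow two_ne_zero, mul_zero, eval_map]
      obtain ⟨w, hw⟩ := hr2
      have h1 : eval₂ (algebraMap Q (AdjoinRoot r)) (AdjoinRoot.root r) r = 0 :=
        AdjoinRoot.eval₂_root r
      rw [hw, eval₂_mul, h1, zero_mul]
  tfae_have 2 → 3 := by
    rintro ⟨E, _, _, _, hE, hP⟩
    have hchar : CharZero R := charZero_of_injective_algebraMap (algebraMap K R).injective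
    have hcharQ : CharZero (FractionRing R[X]) :=
      charZero_of_injective_algebraMap (IsFractionRing.injective R[X] (FractionRing R[X]))
    obtain ⟨z, hz, H⟩ := Run7.h846.spread_point 2 R[X] (FractionRing R[X]) h f E (by
      rw [← even_iff_two_dvd]
      exact Nat.not_even_iff_odd.2 hE) hP
    refine ⟨z, hz, fun L _ _ _ φ s hs => ?_⟩
    obtain ⟨L', i1, i2, i3, hL', hP'⟩ := H L (eval₂RingHom (φ : R →+* L) s) hs
    rw [← even_iff_two_dvd] at hL'
    exact ⟨L', i1, i2, i3, Nat.not_even_iff_odd.1 hL', hP'⟩
  tfae_finish

end Pool.Agent.Results.MP_e66f84_ag.SectionsOverOddExtensions
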